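import Mathlib
import Pool.Agent.H30.Ponag

set_option autoImplicit false

namespace Pool.Agent.Results.MP_2f53c7_gt.Blow

open Set Filter Topology

variable {X : Type} [TopologicalSpace X]

/-- A move of Alice: a set `Y` and an assignment `V`. -/
abbrev Move (X : Type) := Set X × (X → Set X)

/-- The part of the space not covered before round `n`. -/
def Rest (A : ℕ → Move X) (D : ℕ → Set X) (n : ℕ) : Set X := (⋃ j < n, ⋃ x ∈ D j, (A j).2 x)ᶜ

/-- Alice's move in round `n` is legal. -/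
def AliceLegal (A : ℕ → Move X) (D : ℕ → Set X) (n : ℕ) : Prop :=
  (∀ x ∈ (A n).1, IsOpen ((A n).2 x) ∧ x ∈ (A n).2 x) ∧ (A n).1 ⊆ Rest A D n ∧
    Rest A D n ⊆ ⋃ x ∈ (A n).1, (A n).2 x

/-- Bob's move in round `n` is legal. -/
def BobLegal (A : ℕ → Move X) (D : ℕ → Set X) (n : ℕ) : Prop :=
  D n ⊆ (A n).1 ∧ IsClosed (D n) ∧ DiscreteTopology (D n)

/-- Bob's choices cover the space. -/
def Covers (A : ℕ → Move X) (D : ℕ → Set X) : Prop := ⋃ n, ⋃ x ∈ D n, (A n).2 x = univ

/-- Totally paracompact spaces. -/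
def TotPara (X : Type) [TopologicalSpace X] : Prop :=
  ∀ B : Set (Set X), TopologicalSpace.IsTopologicalBasis B → ∃ C ⊆ B, ⋃₀ C = univ ∧
    ∀ y : X, ∃ N ∈ 𝓝 y, {U ∈ C | (U ∩ N).Nonempty}.Finite

/-- Alice has a winning strategy. -/
def AliceWins (X : Type) [TopologicalSpace X] : Prop :=
  ∃ τ : (n : ℕ) → (Fin n → Move X) → (Fin n → Set X) → Move X,
    ∀ (A : ℕ → Move X) (D : ℕ → Set X), (∀ n, A n = τ n (fun i => A i) (fun i => D i)) →
      (∀ n, (∀ k < n, BobLegal A D k) → AliceLegal A D n) ∧ ((∀ n, BobLegal A D n) → ¬ Covers A D)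

open Pool.Agent.H30.Ponag in
theorem result : ∃ (X : Type) (_ : TopologicalSpace X), Infinite X ∧ T2Space X ∧ RegularSpace X ∧
    ¬ AliceWins X ∧ ¬ TotPara X := by
  refine ⟨Y, inferInstance, inferInstance, inferInstance, inferInstance, ?_, fun h => ?_⟩
  · rintro ⟨τ, hτ⟩
    let A : ℕ → Move Y := (Nat.lt_wfRel.wf).fix fun n p =>
      τ n (fun i => p i i.2) fun i => bob i (p i i.2)
    obtain ⟨h1, h2⟩ := hτ A (fun n => bob n (A n)) fun n => WellFounded.fix_eq _ _ n
    have key : ∀ n, (∀ k ≤ n, AliceLegal A (fun n => bob n (A n)) k) →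
        BobLegal A (fun n => bob n (A n)) n ∧ (0 < n → Covers A fun n => bob n (A n)) := fun n h =>
      play A _ n (fun _ _ => rfl) fun k hk => ⟨fun x hx => ((h k hk).1 x hx).1, (h k hk).2⟩
    have all : ∀ n, BobLegal A (fun n => bob n (A n)) n := fun n =>
      Nat.strong_induction_on n fun n ih => (key n fun k hk => h1 k fun j hj => ih j (hj.trans_le hk)).1
    exact h2 all ((key 1 fun k _ => h1 k fun j _ => all j).2 one_pos)
  · obtain ⟨B, hB, h'⟩ := not_tp
    obtain ⟨C, a, b, c⟩ := h B hB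
    exact h' C a b c

end Pool.Agent.Results.MP_2f53c7_gt.Blow
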